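import Pool.Agent.Helper112.Cb.Kca

open Finset

namespace Pool.Agent.Results.MP_1cb037_nt.PreciseBases

/-- `A` is an asymptotic basis of order `h`: there is `n₀` such that every integer `n ≥ n₀` is a
sum of `h` elements of `A` (repetitions allowed). -/
def IsAsymptoticBasis (h : ℕ) (A : Set ℕ) : Prop :=
  ∃ n₀ : ℕ, ∀ n : ℕ, n₀ ≤ n → ∃ f : Fin h → ℕ, (∀ i, f i ∈ A) ∧ n = ∑ i, f i

/-- `a 1 < a 2 < a 3 < ⋯` are all the elements of `A` in increasing order, so that `a n` is the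
`n`-th smallest element of `A` (the value `a 0` is irrelevant). -/
def IsEnumeration (A : Set ℕ) (a : ℕ → ℕ) : Prop :=
  (∀ n, 1 ≤ n → a n ∈ A) ∧ (∀ m n, 1 ≤ m → m < n → a m < a n) ∧ (∀ x ∈ A, ∃ n, 1 ≤ n ∧ a n = x)

/-- For every `h ≥ 2` there are an asymptotic basis `A = {a 1 < a 2 < ⋯}` of order `h` and a real
number `lam > 0` with `a n = lam * n ^ h + o (n ^ (h - 1))`. -/
theorem result : ∀ h : ℕ, 2 ≤ h → ∃ (A : Set ℕ) (a : ℕ → ℕ) (lam : ℝ),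
    IsAsymptoticBasis h A ∧ IsEnumeration A a ∧ 0 < lam ∧
    (fun n : ℕ => (a n : ℝ) - lam * (n : ℝ) ^ h) =o[Filter.atTop]
      (fun n : ℕ => (n : ℝ) ^ (h - 1)) := by
  intro h hh
  obtain ⟨a, lam, hlam, hmono, ⟨N₀, hN₀⟩, hasym⟩ := Pool.Agent.Helper112.CB.cassels h hh
  refine ⟨{x | ∃ n, 1 ≤ n ∧ a n = x}, a, lam, ⟨N₀, fun N hN => ?_⟩,
    ⟨fun n hn => ⟨n, hn, rfl⟩, fun m n _ hmn => hmono hmn, fun x hx => hx⟩, hlam, hasym⟩
  obtain ⟨f, hf1, hf2⟩ := hN₀ N hN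
  exact ⟨fun i => a (f i), fun i => ⟨f i, hf1 i, rfl⟩, hf2.symm⟩

end Pool.Agent.Results.MP_1cb037_nt.PreciseBases
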